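import Pool.Agent.helper23.CO.SpecB

set_option autoImplicit false

open Finset Filter Topology

namespace CO

open CU

theorem KER_slab (d n : ℕ) [NeZero n] (hd : 0 < d) (J : Finset (ZMod n)) :
    (slab hd J).card = J.card * n ^ (d - 1) := by
  classical
  obtain ⟨e, rfl⟩ : ∃ e, d = e + 1 := ⟨d - 1, by omega⟩
  have h1 : slab hd J = Fintype.piFinset (fun i : Fin (e + 1) => if i = 0 then J else univ) := by
    ext x
    simp only [slab, mem_filter, mem_univ, true_and, Fintype.mem_piFinset]
    constructor
    · intro h i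
      by_cases hi : i = 0
      · subst hi
        simpa using h
      · simp [hi]
    · intro h
      have := h 0
      simpa using this
  rw [h1, Fintype.card_piFinset, Fin.prod_univ_succ]
  simp [Fin.succ_ne_zero, ZMod.card]

theorem KER_N (d n : ℕ) [NeZero n] (hd : 0 < d) :
    Fintype.card (Site d n) = n * n ^ (d - 1) := by
  obtain ⟨e, rfl⟩ : ∃ e, d = e + 1 := ⟨d - 1, by omega⟩
  simp [ZMod.card, pow_succ, mul_comm]

theorem KER_mem (d n : ℕ) [NeZero n] (hd : 0 < d) (I : Finset (ZMod n)) (a : ZMod n)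
    (x : Site d n) : x ∈ slab hd (I.image fun u => u + a) ↔ x ⟨0, hd⟩ - a ∈ I := by
  simp only [slab, mem_filter, mem_univ, true_and, mem_image]
  constructor
  · rintro ⟨u, hu, h⟩
    rw [← h, add_sub_cancel_right]
    exact hu
  · intro h
    exact ⟨_, h, sub_add_cancel _ _⟩

theorem KER_icard (n : ℕ) (I : Finset (ZMod n)) (a : ZMod n) :
    (I.image fun u => u + a).card = I.card :=
  card_image_of_injective _ (add_left_injective a)

theorem KER_mI (d n : ℕ) [NeZero n] (hd : 0 < d) (I : Finset (ZMod n)) (a : ZMod n)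
    (σ : Conf d n) : mI hd (I.image fun u => u + a) σ =
      (∑ x : Site d n, (if x ⟨0, hd⟩ - a ∈ I then (1 : ℝ) else 0) * sg (σ x)) /
        ((I.card : ℝ) * (n : ℝ) ^ (d - 1)) := by
  classical
  unfold mI
  rw [KER_slab, KER_icard]
  push_cast
  congr 1
  rw [← sum_filter_add_sum_filter_not univ (fun x : Site d n => x ⟨0, hd⟩ - a ∈ I)]
  have h2 : ∑ x ∈ univ.filter (fun x : Site d n => ¬ (x ⟨0, hd⟩ - a ∈ I)),
      (if x ⟨0, hd⟩ - a ∈ I then (1 : ℝ) else 0) * sg (σ x) = 0 := by
    apply sum_eq_zero
    intro x hx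
    rw [mem_filter] at hx
    rw [if_neg hx.2, zero_mul]
  rw [h2, add_zero]
  apply sum_congr
  · ext x
    rw [KER_mem]
    simp
  · intro x hx
    rw [mem_filter] at hx
    rw [if_pos hx.2, one_mul]

theorem KER_pair (n : ℕ) [NeZero n] (I : Finset (ZMod n)) (p q : ZMod n) :
    ∑ a : ZMod n, (if p - a ∈ I then (1 : ℝ) else 0) * (if q - a ∈ I then (1 : ℝ) else 0) =
      ((I.filter fun v => v + (q - p) ∈ I).card : ℝ) := by
  classical
  have h1 : ∑ a : ZMod n, (if p - a ∈ I then (1 : ℝ) else 0) * (if q - a ∈ I then (1 : ℝ) else 0) =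
      ∑ v : ZMod n, (if v ∈ I then (1 : ℝ) else 0) * (if v + (q - p) ∈ I then (1 : ℝ) else 0) := by
    apply Fintype.sum_equiv (Equiv.subLeft p)
    intro a
    have h2 : (Equiv.subLeft p) a = p - a := rfl
    have h3 : p - a + (q - p) = q - a := by ring
    rw [h2, h3]
  rw [h1, card_filter]
  push_cast
  simp only [ite_mul, one_mul, zero_mul]
  rw [← sum_filter]
  apply sum_congr _ fun _ _ => rfl
  ext v
  simp

theorem KER_one (n : ℕ) [NeZero n] (I : Finset (ZMod n)) (p : ZMod n) :
    ∑ a : ZMod n, (if p - a ∈ I then (1 : ℝ) else 0) = (I.card : ℝ) := by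
  classical
  have h1 : ∑ a : ZMod n, (if p - a ∈ I then (1 : ℝ) else 0) =
      ∑ v : ZMod n, (if v ∈ I then (1 : ℝ) else 0) := by
    apply Fintype.sum_equiv (Equiv.subLeft p)
    intro a
    rfl
  rw [h1]
  simp

theorem KER : KER_stmt := by
  classical
  intro d n _ hd I hI
  have hn0 : (0 : ℝ) < n := by exact_mod_cast Nat.pos_of_ne_zero (NeZero.ne n)
  have hIc : (0 : ℝ) < I.card := by exact_mod_cast card_pos.2 hI
  set M : ℝ := (n : ℝ) ^ (d - 1) with hM
  have hM0 : 0 < M := by positivity
  have hN : (Fintype.card (Site d n) : ℝ) = n * M := by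
    rw [KER_N d n hd]
    push_cast
    rfl
  set c : Site d n → ℝ := fun z => ((I.filter fun v => v + z ⟨0, hd⟩ ∈ I).card : ℝ) with hc
  have hc0 : ∀ z, 0 ≤ c z := fun z => by
    rw [hc]
    positivity
  have hc1 : ∀ z, c z ≤ I.card := by
    intro z
    have h1 : (I.filter fun v => v + z ⟨0, hd⟩ ∈ I).card ≤ I.card := card_filter_le _ _
    show ((I.filter fun v => v + z ⟨0, hd⟩ ∈ I).card : ℝ) ≤ I.card
    exact_mod_cast h1
  have hcs : ∑ z, c z = (I.card : ℝ) * ((I.card : ℝ) * M) := by
    have h1 : ∑ z, c z = ∑ z : Site d n, ∑ v ∈ I, (if v + z ⟨0, hd⟩ ∈ I then (1 : ℝ) else 0) := by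
      apply sum_congr rfl
      intro z _
      rw [hc]
      simp only
      rw [card_filter]
      push_cast
      rfl
    rw [h1, sum_comm]
    have h2 : ∀ v ∈ I, ∑ z : Site d n, (if v + z ⟨0, hd⟩ ∈ I then (1 : ℝ) else 0) =
        (I.card : ℝ) * M := by
      intro v _
      have h3 : (slab hd (I.image fun u => u + -v)).card = I.card * n ^ (d - 1) := by
        rw [KER_slab, KER_icard]
      have h4 : ((slab hd (I.image fun u => u + -v)).card : ℝ) = (I.card : ℝ) * M := by
        rw [h3]
        push_cast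
        rfl
      rw [← h4, ← sum_filter, sum_const, nsmul_eq_mul, mul_one]
      congr 2
      ext z
      rw [KER_mem, mem_filter]
      simp only [mem_univ, true_and, sub_neg_eq_add]
      rw [add_comm]
    rw [sum_congr rfl h2, sum_const, nsmul_eq_mul]
  refine ⟨fun z => (n * M) * c z / (n * (I.card * M) ^ 2), ?_, ?_, ?_⟩
  · intro z
    refine ⟨?_, ?_⟩
    · have := hc0 z
      positivity
    · rw [hN]
      have h1 : (n * M) * c z / (n * (I.card * M) ^ 2) ≤
          (n * M) * I.card / (n * (I.card * M) ^ 2) := by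
        apply div_le_div_of_nonneg_right _ (by positivity)
        exact mul_le_mul_of_nonneg_left (hc1 z) (by positivity)
      refine h1.trans (le_of_eq ?_)
      field_simp
  · rw [← sum_div, ← mul_sum, hcs]
    field_simp
  · intro σ
    constructor
    · have hq : ∑ a : ZMod n, mI hd (I.image fun u => u + a) σ ^ 2 =
          (∑ x : Site d n, ∑ y : Site d n, c (y - x) * (sg (σ x) * sg (σ y))) /
            ((I.card : ℝ) * M) ^ 2 := by
        simp only [KER_mI, div_pow]
        rw [← sum_div]
        congr 1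
        have h1 : ∀ a : ZMod n,
            (∑ x : Site d n, (if x ⟨0, hd⟩ - a ∈ I then (1 : ℝ) else 0) * sg (σ x)) ^ 2 =
            ∑ x : Site d n, ∑ y : Site d n, ((if x ⟨0, hd⟩ - a ∈ I then (1 : ℝ) else 0) *
              (if y ⟨0, hd⟩ - a ∈ I then (1 : ℝ) else 0)) * (sg (σ x) * sg (σ y)) := by
          intro a
          rw [pow_two, sum_mul_sum]
          apply sum_congr rfl
          intro x _
          apply sum_congr rfl
          intro y _
          ring
        simp only [h1]
        rw [sum_comm]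
        apply sum_congr rfl
        intro x _
        rw [sum_comm]
        apply sum_congr rfl
        intro y _
        rw [← sum_mul, KER_pair]
        rfl
      rw [hq]
      unfold Qf
      rw [hN]
      have h2 : ∑ x : Site d n, ∑ y : Site d n,
          (n * M) * c (y - x) / (n * (I.card * M) ^ 2) * (sg (σ x) * sg (σ y)) =
          (n * M) / (n * (I.card * M) ^ 2) *
            ∑ x : Site d n, ∑ y : Site d n, c (y - x) * (sg (σ x) * sg (σ y)) := by
        rw [mul_sum]
        apply sum_congr rfl
        intro x _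
        rw [mul_sum]
        apply sum_congr rfl
        intro y _
        ring
      rw [h2]
      field_simp
    · simp only [KER_mI]
      rw [← sum_div, sum_comm]
      have h1 : ∀ x : Site d n, ∑ a : ZMod n, (if x ⟨0, hd⟩ - a ∈ I then (1 : ℝ) else 0) * sg (σ x) =
          (I.card : ℝ) * sg (σ x) := by
        intro x
        rw [← sum_mul, KER_one]
      simp only [h1]
      rw [← mul_sum, hN, ← hM]
      unfold Mg
      field_simp

end CO
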