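import Pool.Agent.helper23.CO.SpecB

set_option autoImplicit false

open Finset Filter Topology

namespace CO

open CU

theorem LDM (hEXB : EXB_stmt) (hLIN : CU.LIN_stmt) : LDM_stmt := by
  classical
  intro d β κ hd hLC hms hκ
  set M := ms d β with hM
  obtain ⟨θ, hθ, hev⟩ := hEXB d β (κ * M / 2) hd hLC hms (by positivity)
  refine ⟨θ * (κ * M / 2), by positivity, ?_⟩
  filter_upwards [hev] with n hn
  set N : ℝ := (Fintype.card (Site d (n + 3)) : ℝ) with hN
  have hN0 : 0 < N := by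
    rw [hN]
    exact_mod_cast Fintype.card_pos
  set T : ℝ := ((n : ℝ) + 3) ^ (d - 1) with hT
  have hT0 : 0 < T := by positivity
  have h1 := hn (fun _ => 1 / N) 0 le_rfl zero_le_one (by
    intro z
    refine ⟨by positivity, ?_⟩
    apply div_le_div_of_nonneg_right _ hN0.le
    norm_num) (by
    rw [sum_const, card_univ, nsmul_eq_mul]
    rw [← hN]
    field_simp)
  have hY : ∀ σ : Conf d (n + 3), Yk (fun _ => 1 / N) 0 (-1) σ = -(T * (Mg σ / N) ^ 2) := by
    intro σ
    unfold Yk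
    rw [← hN, hT]
    push_cast
    ring
  have h2 : (fun σ : Conf d (n + 3) => Real.exp (θ * Yk (fun _ => 1 / N) 0 (-1) σ)) =
      fun σ => Real.exp (-(θ * T * (Mg σ / N) ^ 2)) := by
    funext σ
    rw [hY]
    congr 1
    ring
  rw [h2] at h1
  rcases le_or_gt κ M with hle | hgt
  · have hpt : ∀ σ : Conf d (n + 3),
        ({σ : Conf d (n + 3) | |Mg σ / N| ≤ M - κ}.indicator (fun _ => (1 : ℝ))) σ ≤
          Real.exp (θ * T * (M ^ 2 - κ * M)) * Real.exp (-(θ * T * (Mg σ / N) ^ 2)) +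
            0 * Real.exp (-(θ * T * (Mg σ / N) ^ 2)) := by
      intro σ
      rw [zero_mul, add_zero]
      by_cases hσ : |Mg σ / N| ≤ M - κ
      · rw [Set.indicator_of_mem (show σ ∈ {σ : Conf d (n + 3) | |Mg σ / N| ≤ M - κ} from hσ)]
        rw [← Real.exp_add]
        apply Real.one_le_exp
        have h3 : (Mg σ / N) ^ 2 ≤ (M - κ) ^ 2 := by
          rw [← sq_abs]
          exact pow_le_pow_left₀ (abs_nonneg _) hσ 2
        have h4 : (M - κ) ^ 2 ≤ M ^ 2 - κ * M := by nlinarith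
        have h5 : 0 ≤ θ * T := by positivity
        have h6 : θ * T * (Mg σ / N) ^ 2 ≤ θ * T * (M ^ 2 - κ * M) :=
          mul_le_mul_of_nonneg_left (h3.trans h4) h5
        linarith
      · rw [Set.indicator_of_notMem (show σ ∉ {σ : Conf d (n + 3) | |Mg σ / N| ≤ M - κ} from hσ)]
        positivity
    have h3 := (hLIN d (n + 3) β
      ({σ : Conf d (n + 3) | |Mg σ / N| ≤ M - κ}.indicator (fun _ => (1 : ℝ)))
      (fun σ => Real.exp (θ * T * (M ^ 2 - κ * M)) * Real.exp (-(θ * T * (Mg σ / N) ^ 2)) +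
            0 * Real.exp (-(θ * T * (Mg σ / N) ^ 2))) 0 0 0).2.2.2.1 hpt
    have h4 := (hLIN d (n + 3) β (fun σ : Conf d (n + 3) => Real.exp (-(θ * T * (Mg σ / N) ^ 2)))
      (fun σ : Conf d (n + 3) => Real.exp (-(θ * T * (Mg σ / N) ^ 2)))
      (Real.exp (θ * T * (M ^ 2 - κ * M))) 0 0).2.2.1
    rw [h4, zero_mul, add_zero] at h3
    refine le_trans h3 ?_
    calc Real.exp (θ * T * (M ^ 2 - κ * M)) *
          Ex β (fun σ : Conf d (n + 3) => Real.exp (-(θ * T * (Mg σ / N) ^ 2)))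
        ≤ Real.exp (θ * T * (M ^ 2 - κ * M)) *
          Real.exp (θ * (T * ((0 - 1) * M ^ 2 + κ * M / 2))) :=
          mul_le_mul_of_nonneg_left h1 (Real.exp_pos _).le
      _ = Real.exp (-(θ * (κ * M / 2)) * T) := by
          rw [← Real.exp_add]
          congr 1
          ring
  · have h3 : {σ : Conf d (n + 3) | |Mg σ / N| ≤ M - κ} = ∅ := by
      rw [Set.eq_empty_iff_forall_notMem]
      intro σ hσ
      have h4 : |Mg σ / N| ≤ M - κ := hσ
      have := abs_nonneg (Mg σ / N)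
      linarith
    rw [h3]
    unfold PrE
    rw [Set.indicator_empty]
    have h4 := (hLIN d (n + 3) β (fun _ : Conf d (n + 3) => (0 : ℝ)) (fun _ => 0) 0 0 0).2.2.2.2
    rw [h4]
    exact (Real.exp_pos _).le

end CO
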