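import Pool.Agent.helper23.CO.SpecC
import Pool.Agent.helper71.CU.MON
import Pool.Agent.helper31.CU.BX3

/-! Row OVT of project co (MP_7c3fb3_pr): two outer configurations. -/

set_option autoImplicit false

open Finset Filter Topology

namespace CO

open CU

/-- `σ` on `S`, `η` off `S` -/
def OVT_gl {d n : ℕ} (S : Finset (Site d n)) (η σ : Conf d n) : Conf d n :=
  fun x => if x ∈ S then σ x else η x

theorem OVT_upd_mem {d n : ℕ} (S : Finset (Site d n)) (η σ : Conf d n) (x : Site d n) (b : Bool)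
    (hx : x ∈ S) : OVT_gl S η (Function.update σ x b) = Function.update (OVT_gl S η σ) x b := by
  funext y
  unfold OVT_gl
  by_cases hy : y = x
  · subst hy
    simp [hx]
  · rw [Function.update_of_ne hy, Function.update_of_ne hy]

theorem OVT_upd_not {d n : ℕ} (S : Finset (Site d n)) (η σ : Conf d n) (x : Site d n) (b : Bool)
    (hx : x ∉ S) : OVT_gl S η (Function.update σ x b) = OVT_gl S η σ := by
  funext y
  unfold OVT_gl
  by_cases hy : y ∈ S
  · have : y ≠ x := fun h => hx (h ▸ hy)
    rw [Function.update_of_ne this]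
  · rw [if_neg hy, if_neg hy]

theorem OVT_brk {d n : ℕ} [NeZero n] (x : Site d n) (σ : Conf d n) (b b' : Bool) :
    (brk (Function.update σ x b)).card ≤ (brk (Function.update σ x b')).card + 2 * d := by
  have h : brk (Function.update σ x b) ⊆ brk (Function.update σ x b') ∪ BX3_E x := by
    intro e he
    rw [mem_union]
    by_cases h1 : e.1 = x
    · right
      unfold BX3_E
      rw [mem_union, mem_image]
      left
      exact ⟨e.2, mem_univ _, by rw [← h1]⟩
    · by_cases h2 : e.1 + ev e.2 = x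
      · right
        unfold BX3_E
        rw [mem_union, mem_image, mem_image]
        right
        exact ⟨e.2, mem_univ _, by rw [← h2, add_sub_cancel_right]⟩
      · left
        simp only [brk, mem_filter, mem_univ, true_and] at he ⊢
        rw [Function.update_of_ne h1, Function.update_of_ne h2] at he ⊢
        exact he
  calc (brk (Function.update σ x b)).card ≤ (brk (Function.update σ x b') ∪ BX3_E x).card :=
        Finset.card_le_card h
    _ ≤ (brk (Function.update σ x b')).card + (BX3_E x).card := Finset.card_union_le _ _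
    _ ≤ _ := Nat.add_le_add_left (BX3_E_card x) _

theorem OVT_W {d n : ℕ} [NeZero n] (β : ℝ) (hβ : 0 ≤ β) (x : Site d n) (σ : Conf d n)
    (b b' : Bool) :
    W β (Function.update σ x b) ≤ Real.exp (4 * d * β) * W β (Function.update σ x b') := by
  unfold W
  rw [← Real.exp_add, Real.exp_le_exp]
  have h : ((brk (Function.update σ x b')).card : ℝ) ≤ (brk (Function.update σ x b)).card + 2 * d := by
    exact_mod_cast OVT_brk x σ b' b
  nlinarith

/-- the weight -/
noncomputable def OVT_P {d n : ℕ} [NeZero n] (β : ℝ) (S : Finset (Site d n)) (η σ : Conf d n) : ℝ :=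
  W β (OVT_gl S η σ)

theorem OVT_P_pos {d n : ℕ} [NeZero n] (β : ℝ) (S : Finset (Site d n)) (η σ : Conf d n) :
    0 < OVT_P β S η σ := Real.exp_pos _

theorem OVT_E1 (d : ℕ) (β : ℝ) (hβ : 0 ≤ β) : 1 ≤ Real.exp (4 * d * β) :=
  Real.one_le_exp (by positivity)

theorem OVT_P_upd {d n : ℕ} [NeZero n] (β : ℝ) (hβ : 0 ≤ β) (S : Finset (Site d n))
    (η : Conf d n) (x : Site d n) (σ : Conf d n) (b b' : Bool) :
    OVT_P β S η (Function.update σ x b) ≤
      Real.exp (4 * d * β) * OVT_P β S η (Function.update σ x b') := by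
  unfold OVT_P
  by_cases hx : x ∈ S
  · rw [OVT_upd_mem _ _ _ _ _ hx, OVT_upd_mem _ _ _ _ _ hx]
    exact OVT_W β hβ x _ b b'
  · rw [OVT_upd_not _ _ _ _ _ hx, OVT_upd_not _ _ _ _ _ hx]
    have h1 := OVT_E1 d β hβ
    have h2 : 0 < W β (OVT_gl S η σ) := Real.exp_pos _
    nlinarith

theorem OVT_Hol {d n : ℕ} [NeZero n] (β : ℝ) (hβ : 0 ≤ β) (S : Finset (Site d n))
    (η : Conf d n) : Hol (OVT_P β S η) (OVT_P β S plus) := by
  refine ⟨OVT_P_pos β S η, OVT_P_pos β S plus, ?_⟩
  intro σ τ
  unfold OVT_P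
  have h1 := MON_W hβ (OVT_gl S η σ) (OVT_gl S plus τ)
  have h2 : OVT_gl S η σ ⊓ OVT_gl S plus τ = OVT_gl S η (σ ⊓ τ) := by
    funext x
    rw [Pi.inf_apply]
    unfold OVT_gl plus
    by_cases hx : x ∈ S
    · simp [hx]
    · simp [hx]
  have h3 : OVT_gl S η σ ⊔ OVT_gl S plus τ = OVT_gl S plus (σ ⊔ τ) := by
    funext x
    rw [Pi.sup_apply]
    unfold OVT_gl plus
    by_cases hx : x ∈ S
    · simp [hx]
    · simp [hx]
  rw [h2, h3] at h1
  exact h1

theorem OVT_half {d n : ℕ} [NeZero n] (β : ℝ) (hβ : 0 ≤ β) (S : Finset (Site d n))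
    (η : Conf d n) (A : Finset (Site d n)) (x : Site d n) (hx : x ∉ A) (σ : Conf d n)
    (b b' : Bool) :
    ∑ ζ ∈ (fb A σ).filter (fun ζ => ζ x = b), OVT_P β S η ζ ≤
      Real.exp (4 * d * β) * ∑ ζ ∈ (fb A σ).filter (fun ζ => ζ x = b'), OVT_P β S η ζ := by
  have h1 : ∑ ζ ∈ (fb A σ).filter (fun ζ => ζ x = b), OVT_P β S η ζ =
      ∑ ζ ∈ (fb A σ).filter (fun ζ => ζ x = b'), OVT_P β S η (Function.update ζ x b) := by
    have hmem : ∀ (ζ : Conf d n) (c : Bool), ζ ∈ fb A σ → Function.update ζ x c ∈ fb A σ := by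
      intro ζ c hζ
      unfold fb at hζ ⊢
      rw [mem_filter] at hζ ⊢
      refine ⟨mem_univ _, fun y hy => ?_⟩
      have : y ≠ x := fun h => hx (h ▸ hy)
      rw [Function.update_of_ne this]
      exact hζ.2 y hy
    apply sum_nbij' (fun ζ => Function.update ζ x b') (fun ζ => Function.update ζ x b)
    · intro ζ hζ
      rw [mem_filter] at hζ ⊢
      exact ⟨hmem ζ b' hζ.1, by simp⟩
    · intro ζ hζ
      rw [mem_filter] at hζ ⊢
      exact ⟨hmem ζ b hζ.1, by simp⟩
    · intro ζ hζ
      rw [mem_filter] at hζ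
      rw [Function.update_idem, ← hζ.2, Function.update_eq_self]
    · intro ζ hζ
      rw [mem_filter] at hζ
      rw [Function.update_idem, ← hζ.2, Function.update_eq_self]
    · intro ζ hζ
      rw [mem_filter] at hζ
      rw [Function.update_idem, ← hζ.2, Function.update_eq_self]
  rw [h1, mul_sum]
  apply sum_le_sum
  intro ζ hζ
  rw [mem_filter] at hζ
  have h2 := OVT_P_upd β hβ S η x ζ b b'
  have h3 : Function.update ζ x b' = ζ := by
    rw [← hζ.2, Function.update_eq_self]
  rw [h3] at h2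
  exact h2

theorem OVT_ca {d n : ℕ} [NeZero n] (β : ℝ) (hβ : 0 ≤ β) (S : Finset (Site d n))
    (η : Conf d n) (A : Finset (Site d n)) (x : Site d n) (σ : Conf d n) (hx : x ∉ A) :
    1 / (1 + Real.exp (4 * d * β)) ≤
      ca (OVT_P β S η) A (fun ζ => if ζ x = true then 1 else 0) σ ∧
    ca (OVT_P β S η) A (fun ζ => if ζ x = true then 1 else 0) σ ≤
      1 - 1 / (1 + Real.exp (4 * d * β)) := by
  have h1 := OVT_half β hβ S η A x hx σ false true
  have h2 := OVT_half β hβ S η A x hx σ true false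
  set T := ∑ ζ ∈ (fb A σ).filter (fun ζ => ζ x = true), OVT_P β S η ζ with hT
  set F := ∑ ζ ∈ (fb A σ).filter (fun ζ => ζ x = false), OVT_P β S η ζ with hF
  set E := Real.exp (4 * d * β) with hE
  have hE0 : 0 < E := Real.exp_pos _
  have hsum : ∑ ζ ∈ fb A σ, OVT_P β S η ζ = T + F := by
    rw [hT, hF, ← sum_filter_add_sum_filter_not (fb A σ) (fun ζ => ζ x = true)]
    congr 1
    apply sum_congr _ fun _ _ => rfl
    ext ζ
    simp
  have hnum : ∑ ζ ∈ fb A σ, OVT_P β S η ζ * (if ζ x = true then 1 else 0) = T := by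
    rw [hT, sum_filter]
    apply sum_congr rfl
    intro ζ _
    split_ifs <;> simp
  have hpos : 0 < T + F := by
    rw [← hsum]
    apply sum_pos (fun ζ _ => OVT_P_pos β S η ζ)
    exact ⟨σ, by simp [fb]⟩
  unfold ca
  rw [hsum, hnum]
  have hE1 : 0 < 1 + E := by linarith
  constructor
  · rw [div_le_div_iff₀ hE1 hpos]
    linarith
  · rw [div_le_iff₀ hpos]
    have h3 : (1 - 1 / (1 + E)) * (T + F) = E * (T + F) / (1 + E) := by
      field_simp
      ring
    rw [h3, le_div_iff₀ hE1]
    linarith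

theorem OVT_sum {d n : ℕ} [NeZero n] (S : Finset (Site d n)) (η : Conf d n) (G : Conf d n → ℝ) :
    ∑ σ : Conf d n, G (OVT_gl S η σ) =
      ((fo (univ \ S) η).card : ℝ) * ∑ ζ ∈ fo S η, G ζ := by
  have h1 : ∑ σ : Conf d n, G (OVT_gl S η σ) =
      ∑ p ∈ fo S η ×ˢ fo (univ \ S) η, G p.1 := by
    apply sum_nbij' (fun σ => (OVT_gl S η σ, OVT_gl (univ \ S) η σ))
      (fun p x => if x ∈ S then p.1 x else p.2 x)
    · intro σ _
      rw [mem_product]
      constructor
      · unfold fo OVT_gl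
        simp only [mem_filter, mem_univ, true_and]
        intro x hx
        rw [if_neg hx]
      · unfold fo OVT_gl
        simp only [mem_filter, mem_univ, true_and]
        intro x hx
        rw [if_neg hx]
    · intro p _
      exact mem_univ _
    · intro σ _
      funext x
      unfold OVT_gl
      by_cases hx : x ∈ S <;> simp [hx]
    · intro p hp
      rw [mem_product] at hp
      obtain ⟨hp1, hp2⟩ := hp
      unfold fo at hp1 hp2
      simp only [mem_filter, mem_univ, true_and] at hp1 hp2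
      unfold OVT_gl
      apply Prod.ext
      · funext x
        by_cases hx : x ∈ S
        · simp [hx]
        · simp only [hx, if_false]
          exact (hp1 x hx).symm
      · funext x
        by_cases hx : x ∈ S
        · have hx2 : x ∉ (univ : Finset (Site d n)) \ S := by simp [hx]
          show (if x ∈ (univ : Finset (Site d n)) \ S then (if x ∈ S then p.1 x else p.2 x) else η x) = p.2 x
          rw [if_neg hx2]
          exact (hp2 x hx2).symm
        · simp [hx]
    · intro σ _
      rfl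
  rw [h1, sum_product]
  simp only [sum_const, nsmul_eq_mul]
  rw [← mul_sum]

theorem OVT_aw {d n : ℕ} [NeZero n] (β : ℝ) (S : Finset (Site d n)) (η : Conf d n)
    (F : Conf d n → ℝ) :
    aw (OVT_P β S η) (fun σ => F (OVT_gl S η σ)) = ER β S F η := by
  unfold aw ER OVT_P
  rw [OVT_sum S η (fun ζ => W β ζ * F ζ), OVT_sum S η (fun ζ => W β ζ)]
  apply mul_div_mul_left
  have : (fo (univ \ S) η).Nonempty := ⟨η, by simp [fo]⟩
  exact_mod_cast (card_pos.2 this).ne'

theorem OVT (_hCAB : CAB_stmt) (hENT : ENT_stmt) (hOVL : OVL_stmt) : OVT_stmt := by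
  classical
  intro d n _ _hn β D S Wp η₁ η₂ v u₁ u₂ hβ hD hWS hD1 hD2 hv
  set E := Real.exp (4 * d * β) with hE
  have hE1 : 1 ≤ E := OVT_E1 d β hβ
  have hc0 : 0 < 1 / (1 + E) := by positivity
  have hc2 : 1 / (1 + E) ≤ 1 / 2 := by
    apply one_div_le_one_div_of_le (by norm_num)
    linarith
  have hQQ := OVT_Hol β hβ S (plus : Conf d n)
  have hca : ∀ (A : Finset (Site d n)) (x : Site d n) (σ : Conf d n), x ∉ A →
      1 / (1 + E) ≤ ca (OVT_P β S plus) A (fun η => if η x = true then 1 else 0) σ ∧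
      ca (OVT_P β S plus) A (fun η => if η x = true then 1 else 0) σ ≤ 1 - 1 / (1 + E) :=
    fun A x σ hx => OVT_ca β hβ S plus A x σ hx
  have hsg : ∀ (η : Conf d n) (x : Site d n), x ∈ Wp →
      aw (OVT_P β S η) (fun σ => CU.sg (σ x)) = ER β S (fun σ => sg (σ x)) η := by
    intro η x hx
    have h1 := OVT_aw β S η (fun σ => sg (σ x))
    have h2 : (fun σ : Conf d n => sg (OVT_gl S η σ x)) = fun σ => sg (σ x) := by
      funext σ
      unfold OVT_gl
      rw [if_pos (hWS hx)]
    rw [h2] at h1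
    exact h1
  have hent : ∀ η : Conf d n,
      (∑ x ∈ Wp, (ER β S (fun σ => sg (σ x)) plus - ER β S (fun σ => sg (σ x)) η)) ≤ D →
      aw (OVT_P β S η) (fun σ => Real.log (dn (OVT_P β S η) (OVT_P β S plus) Wp σ)) ≤
        (1 + E) * D := by
    intro η hη
    have h1 := hENT (Site d n) (OVT_P β S η) (OVT_P β S plus) (1 / (1 + E))
      (OVT_Hol β hβ S η) hQQ hc0 hc2 hca Wp
    refine h1.trans ?_
    rw [one_div_one_div]
    apply mul_le_mul_of_nonneg_left _ (by linarith)
    have h2 : ∑ x ∈ Wp, (aw (OVT_P β S plus) (fun σ => CU.sg (σ x)) -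
        aw (OVT_P β S η) fun σ => CU.sg (σ x)) =
        ∑ x ∈ Wp, (ER β S (fun σ => sg (σ x)) plus - ER β S (fun σ => sg (σ x)) η) := by
      apply sum_congr rfl
      intro x hx
      rw [hsg plus x hx, hsg η x hx]
    rw [h2]
    exact hη
  have key := hOVL (Site d n) (OVT_P β S η₁) (OVT_P β S η₂) (OVT_P β S plus) ((1 + E) * D)
    (OVT_Hol β hβ S η₁) (OVT_Hol β hβ S η₂) hQQ (by positivity) Wp (hent η₁ hD1) (hent η₂ hD2)
    v u₁ u₂ hv
  have hval : ∀ (η : Conf d n) (u : ℝ), aw (OVT_P β S η) (fun σ => |u - v σ|) =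
      ER β S (fun σ => |u - v σ|) η := by
    intro η u
    have h1 := OVT_aw β S η (fun σ => |u - v σ|)
    have h2 : (fun σ : Conf d n => |u - v (OVT_gl S η σ)|) = fun σ => |u - v σ| := by
      funext σ
      have h3 : v (OVT_gl S η σ) = v σ := by
        apply hv
        intro x hx
        unfold OVT_gl
        rw [if_pos (hWS hx)]
      rw [h3]
    rw [h2] at h1
    exact h1
  rw [hval, hval] at key
  exact key

end CO
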