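import Pool.Agent.helper23.CO.SpecB

set_option autoImplicit false

open Finset Filter Topology

namespace CO

open CU

theorem STP (hJMP : JMP_stmt) (hFLD : FLD_stmt) (hCBX : CBX_stmt) : STP_stmt := by
  intro d n R _ hn hd hR b h h' a m μ₀ hb hh hh' hμ₀ ha haμ hμm hm1 hR4 hmT
  have hm : 0 < m := lt_of_lt_of_le hμ₀ hμm
  obtain ⟨hB1, hB2, hB3, hB4⟩ := hCBX d n R
  have hdr : (1 : ℝ) ≤ d := by exact_mod_cast hd
  have hRr : (1 : ℝ) ≤ R := by exact_mod_cast hR
  have hm4 : μ₀ ^ 4 ≤ m ^ 4 := pow_le_pow_left₀ hμ₀.le hμm 4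
  have hm2 : m ^ 2 ≤ 1 := pow_le_one₀ hm.le hm1
  have hμ2 : μ₀ ^ 2 ≤ m ^ 2 := pow_le_pow_left₀ hμ₀.le hμm 2
  -- claim A
  have hA : ∀ x : Site d n, nrm x ≤ 2 * d * R → m ^ 2 - a / 2 ≤ cT (b + a) (fun _ => 0) 0 x := by
    intro x hx
    have h1 := hJMP d n hn b (b + a) h m hb (by linarith) hh.le hm hmT x
    have h2 : b + a - b = a := by ring
    rw [h2] at h1
    refine le_trans ?_ h1
    have h3 : 0 < a * m ^ 4 := by positivity
    have hx0 := hB4 x
    have h4 : nrm x * (h / (a * m ^ 4)) ≤ a / 2 := by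
      rw [← mul_div_assoc, div_le_iff₀ h3]
      calc nrm x * h ≤ 2 * d * R * h := mul_le_mul_of_nonneg_right hx hh.le
        _ ≤ a ^ 2 * μ₀ ^ 4 / 2 := by linarith
        _ ≤ a ^ 2 * m ^ 4 / 2 := by
            have := mul_le_mul_of_nonneg_left hm4 (sq_nonneg a)
            linarith
        _ = a / 2 * (a * m ^ 4) := by ring
    have h5 : 0 ≤ nrm x * (h / (a * m ^ 4)) := mul_nonneg hx0 (by positivity)
    have h6 : nrm x * (h / (a * m ^ 4)) * m ^ 2 ≤ nrm x * (h / (a * m ^ 4)) * 1 :=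
      mul_le_mul_of_nonneg_left hm2 h5
    have h7 : (1 - nrm x * (h / (a * m ^ 4))) * m ^ 2 =
        m ^ 2 - nrm x * (h / (a * m ^ 4)) * m ^ 2 := by ring
    rw [h7]
    linarith
  constructor
  · intro hnR x
    apply hA x
    refine (hB3 x).trans ?_
    have h1 : (n : ℝ) ≤ 2 * R + 1 := by exact_mod_cast hnR
    have h2 : (d : ℝ) * n ≤ d * (2 * R + 1) := mul_le_mul_of_nonneg_left h1 (by linarith)
    nlinarith
  · intro hnR
    have hcard := hB1 (by omega)
    have hne : (Box R (0 : Site d n)).Nonempty := by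
      rw [← card_pos, hcard]
      positivity
    have hF := hFLD d n hn (b + a) h' (m ^ 2 - a / 2) (a / 2) (Box R (0 : Site d n))
      (by linarith) hh' (by linarith) (by linarith) hne (by
        intro x hx y hy
        exact hA _ (hB2 x hx y hy))
    rw [hcard] at hF
    have e1 : (2 : ℝ) / (a / 2) = 4 / a := by
      field_simp
      norm_num
    have e2 : m ^ 2 - a / 2 - a / 2 = m ^ 2 - a := by ring
    rw [e1, e2] at hF
    push_cast at hF
    have h3 : m - a / μ₀ ≤ √(m ^ 2 - a) := by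
      have h4 : m - a / μ₀ ≤ m - a / m := by
        have := div_le_div_of_nonneg_left ha.le hμ₀ hμm
        linarith
      refine h4.trans ?_
      apply Real.le_sqrt_of_sq_le
      have h5 : a / m * m = a := div_mul_cancel₀ a hm.ne'
      have h6 : 0 ≤ a / m := by positivity
      have h7 : a / m ≤ m := by
        rw [div_le_iff₀ hm]
        nlinarith
      have h8 : (m - a / m) ^ 2 = m ^ 2 - 2 * (a / m * m) + (a / m) * (a / m) := by ring
      rw [h8, h5]
      have h9 : a / m * (a / m) ≤ a / m * m := mul_le_mul_of_nonneg_left h7 h6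
      rw [h5] at h9
      linarith
    linarith

end CO
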