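import Pool.Agent.helper23.CO.SpecU
import Pool.Agent.helper89.CU.VD

/-! Row ZTR of project co (MP_7c3fb3_pr): translation invariance, copy of row VD of project cu. -/

set_option autoImplicit false

open Finset Filter Topology MeasureTheory

namespace CO

open CU

theorem ZTR_wt {d : ℕ} (β h : ℝ) (L : ℕ) (x : ZSite d) (σ : ZConf d) :
    zwt β h (zBox L x) σ = zwt β h (zBox L (0 : ZSite d)) (fun y => σ (y + x)) := by
  unfold zwt
  have hE : ∑ e ∈ tE (zBox L x), sg (σ e.1) * sg (σ (e.1 + zev e.2)) =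
      ∑ e ∈ tE (zBox L (0 : ZSite d)), sg (σ (e.1 + x)) * sg (σ (e.1 + zev e.2 + x)) := by
    symm
    apply Finset.sum_bij (fun e _ => (e.1 + x, e.2))
    · intro e he
      rw [VD_mem_tE] at he ⊢
      show e.1 + x ∈ _ ∨ e.1 + x + zev e.2 ∈ _
      rw [add_right_comm, VD_box, VD_box]
      exact he
    · intro e _ e' _ h
      rw [Prod.mk.injEq] at h
      exact Prod.ext (add_right_cancel h.1) h.2
    · intro e he
      refine ⟨(e.1 - x, e.2), ?_, ?_⟩
      · rw [VD_mem_tE] at he ⊢
        show e.1 - x ∈ _ ∨ e.1 - x + zev e.2 ∈ _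
        rw [← VD_box L x, ← VD_box L x]
        have e1 : e.1 - x + x = e.1 := by abel
        have e2 : e.1 - x + zev e.2 + x = e.1 + zev e.2 := by abel
        rw [e1, e2]
        exact he
      · simp
    · intro e _
      show sg (σ (e.1 + x)) * sg (σ (e.1 + zev e.2 + x)) = sg (σ (e.1 + x)) * sg (σ (e.1 + x + zev e.2))
      rw [add_right_comm]
  have hV : ∑ y ∈ zBox L x, sg (σ y) = ∑ y ∈ zBox L (0 : ZSite d), sg (σ (y + x)) := by
    symm
    apply Finset.sum_bij (fun y _ => y + x)
    · intro y hy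
      exact (VD_box L x y).2 hy
    · intro y _ y' _ h
      exact add_right_cancel h
    · intro y hy
      refine ⟨y - x, ?_, sub_add_cancel y x⟩
      rw [← VD_box L x, sub_add_cancel]
      exact hy
    · intro y _
      rfl
  rw [hE, hV]

theorem ZTR : ZTR_stmt := by
  intro d β h L x b
  set e : {y // y ∈ zBox L (0 : ZSite d)} ≃ {y // y ∈ zBox L x} :=
    { toFun := fun y => ⟨y.1 + x, (VD_box L x y.1).2 y.2⟩
      invFun := fun y => ⟨y.1 - x, (VD_box L x (y.1 - x)).1 (by rw [sub_add_cancel]; exact y.2)⟩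
      left_inv := fun y => Subtype.ext (by simp)
      right_inv := fun y => Subtype.ext (by simp) } with he
  have hglue : ∀ η : {y // y ∈ zBox L (0 : ZSite d)} → Bool, ∀ y,
      glue (zBox L x) (fun z => η (e.symm z)) (fun _ => b) (y + x) =
        glue (zBox L (0 : ZSite d)) η (fun _ => b) y := by
    intro η y
    unfold glue
    by_cases h : y ∈ zBox L (0 : ZSite d)
    · have h2 := (VD_box L x y).2 h
      rw [dif_pos h, dif_pos h2]
      have h3 : e.symm ⟨y + x, h2⟩ = ⟨y, h⟩ := Subtype.ext (add_sub_cancel_right y x)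
      show η (e.symm ⟨y + x, h2⟩) = η ⟨y, h⟩
      rw [h3]
    · have h2 : y + x ∉ zBox L x := fun h3 => h ((VD_box L x y).1 h3)
      rw [dif_neg h, dif_neg h2]
  have hw : ∀ η : {y // y ∈ zBox L (0 : ZSite d)} → Bool,
      zwt β h (zBox L x) (glue (zBox L x) (fun z => η (e.symm z)) (fun _ => b)) =
        zwt β h (zBox L (0 : ZSite d)) (glue (zBox L (0 : ZSite d)) η (fun _ => b)) := by
    intro η
    rw [ZTR_wt]
    congr 1
    funext y
    exact hglue η y
  have hb : Function.Bijective (fun (η : {y // y ∈ zBox L (0 : ZSite d)} → Bool) =>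
      fun z : {y // y ∈ zBox L x} => η (e.symm z)) :=
    (Equiv.arrowCongr e (Equiv.refl Bool)).bijective
  unfold gam
  congr 1
  · symm
    apply Fintype.sum_bijective _ hb
    intro η
    show zwt β h (zBox L (0 : ZSite d)) (glue (zBox L (0 : ZSite d)) η (fun _ => b)) *
        (if glue (zBox L (0 : ZSite d)) η (fun _ => b) 0 = true then (1 : ℝ) else 0) =
      zwt β h (zBox L x) (glue (zBox L x) (fun z => η (e.symm z)) (fun _ => b)) *
        (if glue (zBox L x) (fun z => η (e.symm z)) (fun _ => b) x = true then (1 : ℝ) else 0)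
    rw [hw]
    have h0 := hglue η 0
    rw [zero_add] at h0
    rw [h0]
  · symm
    apply Fintype.sum_bijective _ hb
    intro η
    exact (hw η).symm

end CO
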